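import Pool.Agent.TH934.BR.Main

/-!
# Consequence for Bohr sets of radius `c / (log (1/α))^κ`
-/

set_option autoImplicit false

namespace Pool.Agent.TH934.BR

open Finset

/-- there is no version with radius `c / (log (1/α))^κ` and dimension `C log (1/α)` if `C κ < 1/180` -/
theorem cor (C κ c : ℝ) (hC : 0 < C) (hκ : 0 < κ) (hc : 0 < c) (hCκ : C * κ < 1 / 180) :
    ¬ ∀ N : ℕ, 0 < N → ∀ A : Finset (ZMod N), A.Nonempty → (A.card : ℝ) / (N : ℝ) ≤ 1 / 2 →
        ∃ (Γ : Finset (ZMod N)) (ε : ℝ), 0 < ε ∧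
          (Γ.card : ℝ) ≤ C * Real.log ((N : ℝ) / (A.card : ℝ)) ∧
          c / Real.log ((N : ℝ) / (A.card : ℝ)) ^ κ ≤ ε ∧
          ∀ x : ZMod N,
            (∀ γ ∈ Γ, |((γ * x).val : ℝ) / (N : ℝ) - ((round (((γ * x).val : ℝ) / (N : ℝ)) : ℤ) : ℝ)| ≤ ε) →
            ∃ a₁ ∈ A, ∃ a₂ ∈ A, ∃ a₃ ∈ A, ∃ a₄ ∈ A, x = a₁ + a₂ - a₃ - a₄ := by
  intro hall
  obtain ⟨α₀, hα₀, hmain⟩ := main
  -- choice of the density: `l = log (1/α)` large
  have hgap : 0 < 1 / 180 - C * κ := by linarith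
  set D : ℝ := C * (|Real.log c| + Real.log 2) with hD
  have hlog2 : 0 < Real.log 2 := Real.log_pos (by norm_num)
  have hD0 : 0 ≤ D := by positivity
  -- `l` with `log l > D / gap`
  set l : ℝ := max (Real.exp (D / (1 / 180 - C * κ) + 1)) (max (Real.log (1 / α₀)) 4) with hl
  have hl4 : 4 ≤ l := (le_max_right _ _).trans (le_max_right _ _)
  have hl0 : 0 < l := by linarith
  set α : ℝ := Real.exp (-l) with hα
  have hα0 : 0 < α := Real.exp_pos _
  have hinv : Real.log (1 / α) = l := by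
    rw [hα, one_div, ← Real.exp_neg, neg_neg, Real.log_exp]
  have hαα : α ≤ α₀ := by
    have e1 : Real.log (1 / α₀) ≤ l := (le_max_left _ _).trans (le_max_right _ _)
    rw [one_div, Real.log_inv] at e1
    have e2 : -l ≤ Real.log α₀ := by linarith
    rw [hα]
    calc Real.exp (-l) ≤ Real.exp (Real.log α₀) := Real.exp_le_exp.2 e2
      _ = α₀ := Real.exp_log hα₀
  have hα4 : 2 * α ≤ 1 / 4 := by
    have e1 : α ≤ Real.exp (-3) := Real.exp_le_exp.2 (by linarith)
    have e2 : Real.exp (-3) ≤ 1 / 8 := by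
      rw [Real.exp_neg, inv_eq_one_div]
      refine one_div_le_one_div_of_le (by norm_num) ?_
      have e3 : (2 : ℝ) ≤ Real.exp 1 := by
        have := Real.add_one_le_exp (1 : ℝ); linarith
      have e4 : Real.exp 3 = Real.exp 1 ^ 3 := by rw [← Real.exp_nat_mul]; norm_num
      rw [e4]
      calc (8 : ℝ) = 2 ^ 3 := by norm_num
        _ ≤ Real.exp 1 ^ 3 := pow_le_pow_left₀ (by norm_num) e3 3
    linarith
  obtain ⟨N₀, hN₀⟩ := hmain α hα0 hαα
  obtain ⟨N, hN, hN1⟩ : ∃ N : ℕ, N₀ ≤ N ∧ 1 ≤ N := ⟨max N₀ 1, le_max_left _ _, le_max_right _ _⟩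
  obtain ⟨A, hA1, hA2, hA3⟩ := hN₀ N hN
  have hNR : (0 : ℝ) < N := by exact_mod_cast hN1
  have hAR : (0 : ℝ) < A.card := lt_of_lt_of_le (by positivity) hA1
  have hAne : A.Nonempty := Finset.card_pos.1 (by exact_mod_cast hAR)
  have hdens : (A.card : ℝ) / (N : ℝ) ≤ 1 / 2 := by
    rw [div_le_iff₀ hNR]
    nlinarith
  obtain ⟨Γ, ε, hε, hΓ, hεc, hsub⟩ := hall N hN1 A hAne hdens
  set L : ℝ := Real.log ((N : ℝ) / (A.card : ℝ)) with hL
  have hLle : L ≤ l := by
    rw [hL, ← hinv]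
    refine Real.log_le_log (by positivity) ?_
    rw [div_le_div_iff₀ hAR hα0]
    linarith
  have hL1 : 1 ≤ L := by
    rw [hL, Real.le_log_iff_exp_le (by positivity), le_div_iff₀ hAR]
    have e1 : Real.exp 1 ≤ 4 := by
      have := Real.exp_one_lt_d9; linarith
    have e2 : (A.card : ℝ) ≤ 1 / 4 * N := hA2.trans (mul_le_mul_of_nonneg_right hα4 hNR.le)
    nlinarith
  have hL0 : 0 < L := by linarith
  -- the radius
  have hε' : 0 < min ε (1 / 2) := lt_min hε (by norm_num)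
  have hkey := hA3 Γ (min ε (1 / 2)) hε' (min_le_right _ _) (by
    intro x hx
    exact hsub x fun γ hγ => (hx γ hγ).trans (min_le_left _ _))
  rw [hinv] at hkey
  have hlogε : Real.log (1 / min ε (1 / 2)) ≤ κ * Real.log l + |Real.log c| + Real.log 2 := by
    have hll : 0 ≤ κ * Real.log l := mul_nonneg hκ.le (Real.log_nonneg (by linarith))
    have habs := abs_nonneg (Real.log c)
    rw [one_div, Real.log_inv]
    rcases le_total ε (1 / 2) with h | h
    · rw [min_eq_left h]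
      have e1 := Real.log_le_log (by positivity) hεc
      rw [Real.log_div hc.ne' (by positivity), Real.log_rpow hL0] at e1
      have e2 : Real.log L ≤ Real.log l := Real.log_le_log hL0 hLle
      have e3 : κ * Real.log L ≤ κ * Real.log l := mul_le_mul_of_nonneg_left e2 hκ.le
      have e4 := neg_abs_le (Real.log c)
      linarith
    · rw [min_eq_right h, one_div, Real.log_inv, neg_neg]
      linarith
  have hΓ' : (Γ.card : ℝ) ≤ C * l := hΓ.trans (mul_le_mul_of_nonneg_left hLle hC.le)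
  have hlε0 : 0 ≤ Real.log (1 / min ε (1 / 2)) := by
    refine Real.log_nonneg ?_
    rw [le_div_iff₀ hε']
    have := min_le_right ε (1 / 2)
    linarith
  have hup : (Γ.card : ℝ) * Real.log (1 / min ε (1 / 2)) ≤
      C * l * (κ * Real.log l + |Real.log c| + Real.log 2) :=
    mul_le_mul hΓ' hlogε hlε0 (by positivity)
  have h1 : l * (1 / 180 * Real.log l) ≤ l * (C * (κ * Real.log l + |Real.log c| + Real.log 2)) := by
    linarith
  have h2 := le_of_mul_le_mul_left h1 hl0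
  have h3 : (1 / 180 - C * κ) * Real.log l ≤ D := by
    rw [hD]; linarith
  have h4 : D / (1 / 180 - C * κ) + 1 ≤ Real.log l := by
    rw [Real.le_log_iff_exp_le hl0]
    exact le_max_left _ _
  have h5 : (1 / 180 - C * κ) * (D / (1 / 180 - C * κ) + 1) ≤ (1 / 180 - C * κ) * Real.log l :=
    mul_le_mul_of_nonneg_left h4 hgap.le
  rw [mul_add, mul_div_cancel₀ _ hgap.ne'] at h5
  linarith

end Pool.Agent.TH934.BR
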