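import Pool.Agent.H842R3.BogoD

/-!
# From the integers to `ℤ/N`: dilated and fattened sets
-/

set_option autoImplicit false

namespace Pool.Agent.TH934.BR

open Finset Pool.Agent.H842R3.Bogo

/-- the dilated and fattened set -/
def fat (w : ℕ) (A : Finset ℤ) : Finset ℤ :=
  (A ×ˢ Finset.range w).image fun p => p.1 * (8 * (w : ℤ)) + (p.2 : ℤ)

lemma mem_fat {w : ℕ} {A : Finset ℤ} {x : ℤ} :
    x ∈ fat w A ↔ ∃ a ∈ A, ∃ j : ℕ, j < w ∧ x = a * (8 * (w : ℤ)) + j := by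
  unfold fat
  rw [Finset.mem_image]
  constructor
  · rintro ⟨⟨a, j⟩, h, rfl⟩
    rw [Finset.mem_product, Finset.mem_range] at h
    exact ⟨a, h.1, j, h.2, rfl⟩
  · rintro ⟨a, ha, j, hj, rfl⟩
    exact ⟨(a, j), by rw [Finset.mem_product, Finset.mem_range]; exact ⟨ha, hj⟩, rfl⟩

lemma card_fat (w : ℕ) (A : Finset ℤ) : (fat w A).card = A.card * w := by
  unfold fat
  rw [Finset.card_image_of_injOn, Finset.card_product, Finset.card_range]
  rintro ⟨a, j⟩ h ⟨b, k⟩ h' he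
  rw [Finset.mem_coe, Finset.mem_product, Finset.mem_range] at h h'
  simp only at he h h'
  have hw : (0 : ℤ) < w := by
    have : 0 < w := lt_of_le_of_lt (Nat.zero_le _) h.2
    exact_mod_cast this
  have hj : (j : ℤ) < w := by exact_mod_cast h.2
  have hk : (k : ℤ) < w := by exact_mod_cast h'.2
  have hj0 : (0 : ℤ) ≤ j := Int.natCast_nonneg _
  have hk0 : (0 : ℤ) ≤ k := Int.natCast_nonneg _
  have hab : a = b := by
    rcases lt_trichotomy a b with h1 | h1 | h1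
    · exfalso
      have : a + 1 ≤ b := h1
      nlinarith
    · exact h1
    · exfalso
      have : b + 1 ≤ a := h1
      nlinarith
  subst hab
  have : (j : ℤ) = k := by linarith
  have : j = k := by exact_mod_cast this
  rw [this]

/-- **Transfer.** If the Bohr set of `Γ`, `ε` in `ℤ/N` is contained in the differences of the fattened set,
then an integer Bohr set of no larger dimension is contained in the differences of the set. -/
theorem transfer {M w N : ℕ} (hw : 1 ≤ w) (hN : 8 * w * (3 * M + 1) ≤ N) (hM : 1 ≤ M) {A : Finset ℤ}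
    (hA : A ⊆ Finset.Icc 1 (M : ℤ)) (Γ : Finset (ZMod N)) (ε : ℝ)
    (h : ∀ x : ZMod N,
      (∀ γ ∈ Γ, |((γ * x).val : ℝ) / (N : ℝ) - ((round (((γ * x).val : ℝ) / (N : ℝ)) : ℤ) : ℝ)| ≤ ε) →
      ∃ a₁ ∈ fat w A, ∃ a₂ ∈ fat w A, ∃ a₃ ∈ fat w A, ∃ a₄ ∈ fat w A,
        x = ((a₁ + a₂ - a₃ - a₄ : ℤ) : ZMod N)) :
    ∃ Θ : Finset UnitAddCircle, Θ.card ≤ Γ.card ∧ bohrSet Θ ε M ⊆ twoTwo A := by
  classical
  have hN0 : 0 < N := by
    have : 0 < 8 * w * (3 * M + 1) := by positivity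
    omega
  have : NeZero N := ⟨hN0.ne'⟩
  have hNR : (0 : ℝ) < N := by exact_mod_cast hN0
  refine ⟨Γ.image fun γ => (((((γ.val : ℕ) : ℝ) * (8 * w)) / N : ℝ) : UnitAddCircle), Finset.card_image_le, ?_⟩
  intro n hn
  obtain ⟨hn1, hn2⟩ := hn
  have hx := h ((n * (8 * (w : ℤ)) : ℤ) : ZMod N) (by
    intro γ hγ
    have h1 := hn2 _ (Finset.mem_image_of_mem _ hγ)
    rw [← UnitAddCircle.norm_eq]
    refine le_of_eq_of_le ?_ h1
    congr 1
    rw [← AddCircle.coe_zsmul, zsmul_eq_mul]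
    -- the two reals differ by an integer
    obtain ⟨z, hz⟩ : ∃ z : ℤ, (((γ * ((n * (8 * (w : ℤ)) : ℤ) : ZMod N)).val : ℕ) : ℤ) =
        (γ.val : ℤ) * (n * (8 * (w : ℤ))) + z * N := by
      have h2 : ((((γ * ((n * (8 * (w : ℤ)) : ℤ) : ZMod N)).val : ℕ) : ℤ) : ZMod N) =
          (((γ.val : ℤ) * (n * (8 * (w : ℤ))) : ℤ) : ZMod N) := by
        push_cast
        rw [ZMod.natCast_zmod_val, ZMod.natCast_zmod_val]
      rw [ZMod.intCast_eq_intCast_iff_dvd_sub] at h2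
      obtain ⟨z, hz⟩ := h2
      exact ⟨-z, by linarith⟩
    have h3 : (((γ * ((n * (8 * (w : ℤ)) : ℤ) : ZMod N)).val : ℕ) : ℝ) =
        (γ.val : ℝ) * (n * (8 * (w : ℝ))) + z * N := by exact_mod_cast hz
    rw [h3]
    have h4 : ((γ.val : ℝ) * (n * (8 * (w : ℝ))) + z * N) / N =
        (n : ℝ) * (((γ.val : ℝ) * (8 * w)) / N) + z := by
      field_simp
    rw [h4, AddCircle.coe_add]
    have h5 : (((z : ℤ) : ℝ) : UnitAddCircle) = 0 := by
      rw [AddCircle.coe_eq_zero_iff]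
      exact ⟨z, by simp⟩
    rw [h5, add_zero])
  obtain ⟨a₁, h₁, a₂, h₂, a₃, h₃, a₄, h₄, he⟩ := hx
  rw [mem_fat] at h₁ h₂ h₃ h₄
  obtain ⟨b₁, hb₁, j₁, hj₁, rfl⟩ := h₁
  obtain ⟨b₂, hb₂, j₂, hj₂, rfl⟩ := h₂
  obtain ⟨b₃, hb₃, j₃, hj₃, rfl⟩ := h₃
  obtain ⟨b₄, hb₄, j₄, hj₄, rfl⟩ := h₄
  rw [ZMod.intCast_eq_intCast_iff_dvd_sub] at he
  obtain ⟨z, hz⟩ := he
  have c₁ := Finset.mem_Icc.1 (hA hb₁)
  have c₂ := Finset.mem_Icc.1 (hA hb₂)
  have c₃ := Finset.mem_Icc.1 (hA hb₃)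
  have c₄ := Finset.mem_Icc.1 (hA hb₄)
  have hW : (1 : ℤ) ≤ w := by exact_mod_cast hw
  have hn' := abs_le.1 hn1
  have e₁ : (j₁ : ℤ) < w := by exact_mod_cast hj₁
  have e₂ : (j₂ : ℤ) < w := by exact_mod_cast hj₂
  have e₃ : (j₃ : ℤ) < w := by exact_mod_cast hj₃
  have e₄ : (j₄ : ℤ) < w := by exact_mod_cast hj₄
  have f₁ : (0 : ℤ) ≤ j₁ := Int.natCast_nonneg _
  have f₂ : (0 : ℤ) ≤ j₂ := Int.natCast_nonneg _
  have f₃ : (0 : ℤ) ≤ j₃ := Int.natCast_nonneg _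
  have f₄ : (0 : ℤ) ≤ j₄ := Int.natCast_nonneg _
  set s : ℤ := b₁ + b₂ - b₃ - b₄ - n with hs
  set e : ℤ := (j₁ : ℤ) + j₂ - j₃ - j₄ with he'
  have hz' : s * (8 * (w : ℤ)) + e = N * z := by
    rw [← hz, hs, he']
    ring
  have hNZ : (8 * (w : ℤ)) * (3 * M + 1) ≤ N := by exact_mod_cast hN
  have hs1 : s ≤ 3 * M := by rw [hs]; linarith [c₁.2, c₂.2, c₃.1, c₄.1, hn'.1]
  have hs2 : -(3 * (M : ℤ)) ≤ s := by rw [hs]; linarith [c₁.1, c₂.1, c₃.2, c₄.2, hn'.2]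
  have he1 : e < 8 * w := by rw [he']; linarith
  have he2 : -(8 * (w : ℤ)) < e := by rw [he']; linarith
  have hw8 : (0 : ℤ) ≤ 8 * (w : ℤ) := by linarith
  have hNn : (0 : ℤ) ≤ N := Int.natCast_nonneg N
  have m1 : s * (8 * (w : ℤ)) ≤ 3 * M * (8 * (w : ℤ)) := mul_le_mul_of_nonneg_right hs1 hw8
  have m2 : -(3 * (M : ℤ)) * (8 * (w : ℤ)) ≤ s * (8 * (w : ℤ)) := mul_le_mul_of_nonneg_right hs2 hw8
  have m3 : (8 * (w : ℤ)) * (3 * M + 1) = 3 * M * (8 * (w : ℤ)) + 8 * w := by ring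
  have m4 : -(3 * (M : ℤ)) * (8 * (w : ℤ)) = -(3 * M * (8 * (w : ℤ))) := by ring
  rw [m3] at hNZ
  rw [m4] at m2
  generalize 3 * (M : ℤ) * (8 * (w : ℤ)) = P at m1 m2 hNZ
  have hz0 : z = 0 := by
    by_contra hne
    rcases lt_or_gt_of_ne hne with h1 | h1
    · have h2 : z ≤ -1 := by omega
      have h3 : (N : ℤ) * z ≤ N * (-1) := mul_le_mul_of_nonneg_left h2 hNn
      linarith
    · have h2 : 1 ≤ z := h1
      have h3 : (N : ℤ) * 1 ≤ N * z := mul_le_mul_of_nonneg_left h2 hNn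
      linarith
  have hs0 : s = 0 := by
    rw [hz0, mul_zero] at hz'
    by_contra hne
    rcases lt_or_gt_of_ne hne with h1 | h1
    · have h2 : s ≤ -1 := by omega
      have h3 : s * (8 * (w : ℤ)) ≤ (-1) * (8 * (w : ℤ)) := mul_le_mul_of_nonneg_right h2 hw8
      linarith
    · have h2 : 1 ≤ s := h1
      have h3 : 1 * (8 * (w : ℤ)) ≤ s * (8 * (w : ℤ)) := mul_le_mul_of_nonneg_right h2 hw8
      linarith
  exact ⟨b₁, hb₁, b₂, hb₂, b₃, hb₃, b₄, hb₄, by linarith⟩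

end Pool.Agent.TH934.BR
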