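import Pool.Agent.TH934.BR.Emb

/-!
# Every Bohr set in `2A - 2A` has small radius or large dimension
-/

set_option autoImplicit false

namespace Pool.Agent.TH934.BR

open Finset Pool.Agent.H842R3.Bogo

/-- choice of `t` -/
lemma exists_t (T0 : ℕ) (hT0 : 1 ≤ T0) (y : ℝ) (hy : 128 * (4 : ℝ) ^ (T0 ^ 4) ≤ y) :
    ∃ t : ℕ, T0 ≤ t ∧ 128 * (4 : ℝ) ^ (t ^ 4) ≤ y ∧ y < 128 * (4 : ℝ) ^ ((t + 1) ^ 4) := by
  classical
  have hex : ∃ t : ℕ, y < 128 * (4 : ℝ) ^ ((t + 1) ^ 4) := by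
    obtain ⟨t, ht⟩ := pow_unbounded_of_one_lt y (by norm_num : (1 : ℝ) < 4)
    refine ⟨t, ht.trans_le ?_⟩
    have h1 : (4 : ℝ) ^ t ≤ 4 ^ ((t + 1) ^ 4) := by
      refine pow_le_pow_right₀ (by norm_num) ?_
      calc t ≤ t + 1 := Nat.le_succ t
        _ ≤ (t + 1) ^ 4 := Nat.le_self_pow (by norm_num) _
    have h2 : (0 : ℝ) ≤ 4 ^ ((t + 1) ^ 4) := by positivity
    linarith
  have hT : T0 ≤ Nat.find hex := by
    by_contra hlt
    push Not at hlt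
    have h1 := Nat.find_spec hex
    have h2 : (4 : ℝ) ^ ((Nat.find hex + 1) ^ 4) ≤ 4 ^ (T0 ^ 4) :=
      pow_le_pow_right₀ (by norm_num) (Nat.pow_le_pow_left (by omega) _)
    linarith
  refine ⟨Nat.find hex, hT, ?_, Nat.find_spec hex⟩
  have h1 : Nat.find hex - 1 < Nat.find hex := by omega
  have h2 := Nat.find_min hex h1
  rw [not_lt] at h2
  have h3 : Nat.find hex - 1 + 1 = Nat.find hex := by omega
  rwa [h3] at h2

/-- from the inequality for integers to logarithms -/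
lemma log_form {t g : ℕ} (ht : 200000 ≤ t) {ε α : ℝ} (hε : 0 < ε) (hε2 : ε ≤ 1 / 2)
    (h : t ^ (t ^ 4) ≤ 32 ^ (t ^ 4) * ⌈2 / ε⌉₊ ^ (2 * g))
    (h1 : 128 * (4 : ℝ) ^ (t ^ 4) ≤ 1 / α) (h2 : 1 / α < 128 * (4 : ℝ) ^ ((t + 1) ^ 4)) :
    1 / 180 * (Real.log (1 / α) * Real.log (Real.log (1 / α))) ≤ g * Real.log (1 / ε) := by
  have htR : (200000 : ℝ) ≤ t := by exact_mod_cast ht
  have ht0 : (0 : ℝ) < t := by linarith
  have hlt : 0 < Real.log t := Real.log_pos (by linarith)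
  have h4 : (0 : ℝ) < (t : ℝ) ^ 4 := by positivity
  -- the radius
  set y : ℝ := 1 / ε with hy
  have hy2 : 2 ≤ y := by
    rw [hy, le_div_iff₀ hε]; linarith
  have hy0 : 0 < y := by linarith
  have hceil : ((⌈2 / ε⌉₊ : ℕ) : ℝ) ≤ y ^ 3 := by
    have e1 : 2 / ε = 2 * y := by rw [hy]; ring
    rw [e1]
    have e2 := (Nat.ceil_lt_add_one (by linarith : (0 : ℝ) ≤ 2 * y)).le
    have e3 : 2 * y + 1 ≤ y ^ 3 := by nlinarith [mul_nonneg hy0.le (sub_nonneg.2 hy2)]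
    linarith
  have hceil0 : (0 : ℝ) < ((⌈2 / ε⌉₊ : ℕ) : ℝ) := by
    have : 0 < ⌈2 / ε⌉₊ := Nat.ceil_pos.2 (by positivity)
    exact_mod_cast this
  have hlc : Real.log ((⌈2 / ε⌉₊ : ℕ) : ℝ) ≤ 3 * Real.log y := by
    have := Real.log_le_log hceil0 hceil
    rwa [Real.log_pow, Nat.cast_ofNat] at this
  -- logarithms of the main inequality
  have hmain : (t : ℝ) ^ 4 * Real.log t ≤ (t : ℝ) ^ 4 * Real.log 32 +
      2 * g * Real.log ((⌈2 / ε⌉₊ : ℕ) : ℝ) := by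
    have e1 : ((t ^ (t ^ 4) : ℕ) : ℝ) ≤ ((32 ^ (t ^ 4) * ⌈2 / ε⌉₊ ^ (2 * g) : ℕ) : ℝ) := by
      exact_mod_cast h
    rw [Nat.cast_mul, Nat.cast_pow, Nat.cast_pow, Nat.cast_pow] at e1
    have e2 := Real.log_le_log (by positivity) e1
    rw [Real.log_mul (by positivity) (by positivity), Real.log_pow, Real.log_pow, Real.log_pow] at e2
    push_cast at e2
    linarith
  have h32 : Real.log 32 ≤ Real.log t / 2 := by
    have e1 : Real.log ((32 : ℝ) ^ 2) ≤ Real.log t := Real.log_le_log (by norm_num) (by linarith)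
    rw [Real.log_pow, Nat.cast_ofNat] at e1
    linarith
  have hly : 0 ≤ Real.log y := Real.log_nonneg (by linarith)
  have hg : (0 : ℝ) ≤ g := Nat.cast_nonneg g
  have hfin : (t : ℝ) ^ 4 * Real.log t ≤ 12 * (g * Real.log y) := by
    have e1 : (t : ℝ) ^ 4 * Real.log 32 ≤ (t : ℝ) ^ 4 * (Real.log t / 2) :=
      mul_le_mul_of_nonneg_left h32 h4.le
    have e2 : 2 * (g : ℝ) * Real.log ((⌈2 / ε⌉₊ : ℕ) : ℝ) ≤ 2 * g * (3 * Real.log y) :=
      mul_le_mul_of_nonneg_left hlc (by positivity)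
    linarith
  -- the density
  set x : ℝ := 1 / α with hx
  have hone : (1 : ℝ) ≤ 4 ^ (t ^ 4) := one_le_pow₀ (by norm_num)
  have hx128 : 128 ≤ x := by linarith
  have hx0 : 0 < x := by linarith
  have hlog2 : Real.log 2 < 0.6931471808 := Real.log_two_lt_d9
  have hlog2' : 0.6931471803 < Real.log 2 := Real.log_two_gt_d9
  have h128 : Real.log 128 = 7 * Real.log 2 := by
    rw [show (128 : ℝ) = 2 ^ 7 by norm_num, Real.log_pow]; norm_num
  have hlog4 : Real.log 4 = 2 * Real.log 2 := by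
    rw [show (4 : ℝ) = 2 ^ 2 by norm_num, Real.log_pow]; norm_num
  have hlx : Real.log x ≤ 3 * (t : ℝ) ^ 4 := by
    have e1 := (Real.log_lt_log hx0 h2).le
    rw [Real.log_mul (by norm_num) (by positivity), Real.log_pow, h128, hlog4] at e1
    have e2 : (((t + 1) ^ 4 : ℕ) : ℝ) ≤ 2 * (t : ℝ) ^ 4 := by
      push_cast
      have e3 : (t : ℝ) + 1 ≤ 1.1 * t := by linarith
      have e4 := pow_le_pow_left₀ (by linarith : (0 : ℝ) ≤ (t : ℝ) + 1) e3 4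
      have e5 : (1.1 * (t : ℝ)) ^ 4 = 1.4641 * (t : ℝ) ^ 4 := by ring
      rw [e5] at e4
      linarith
    have e6 : (1000 : ℝ) ≤ (t : ℝ) ^ 4 := by
      have : (t : ℝ) ≤ (t : ℝ) ^ 4 := le_self_pow₀ (by linarith) (by norm_num)
      linarith
    have e7 : (((t + 1) ^ 4 : ℕ) : ℝ) * (2 * Real.log 2) ≤ 2 * (t : ℝ) ^ 4 * (2 * Real.log 2) :=
      mul_le_mul_of_nonneg_right e2 (by linarith)
    have e8 : 2 * (t : ℝ) ^ 4 * (2 * Real.log 2) ≤ 2.8 * (t : ℝ) ^ 4 := by nlinarith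
    linarith
  have hlx1 : 1 ≤ Real.log x := by
    have e1 := Real.log_le_log (by norm_num) hx128
    rw [h128] at e1
    linarith
  have hllx : Real.log (Real.log x) ≤ 5 * Real.log t := by
    have e1 := Real.log_le_log (by linarith) hlx
    rw [Real.log_mul (by norm_num) (by positivity), Real.log_pow] at e1
    have e2 : Real.log 3 ≤ Real.log t := Real.log_le_log (by norm_num) (by linarith)
    push_cast at e1
    linarith
  have hllx0 : 0 ≤ Real.log (Real.log x) := Real.log_nonneg hlx1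
  have hprod : Real.log x * Real.log (Real.log x) ≤ 3 * (t : ℝ) ^ 4 * (5 * Real.log t) :=
    mul_le_mul hlx hllx hllx0 (by positivity)
  have : 3 * (t : ℝ) ^ 4 * (5 * Real.log t) = 15 * ((t : ℝ) ^ 4 * Real.log t) := by ring
  linarith

/-- **Main theorem.** -/
theorem main : ∃ α₀ : ℝ, 0 < α₀ ∧ ∀ α : ℝ, 0 < α → α ≤ α₀ → ∃ N₀ : ℕ, ∀ N : ℕ, N₀ ≤ N →
    ∃ A : Finset (ZMod N), α * N ≤ (A.card : ℝ) ∧ (A.card : ℝ) ≤ 2 * α * N ∧
      ∀ (Γ : Finset (ZMod N)) (ε : ℝ), 0 < ε → ε ≤ 1 / 2 →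
        (∀ x : ZMod N,
          (∀ γ ∈ Γ, |((γ * x).val : ℝ) / (N : ℝ) - ((round (((γ * x).val : ℝ) / (N : ℝ)) : ℤ) : ℝ)| ≤ ε) →
          ∃ a₁ ∈ A, ∃ a₂ ∈ A, ∃ a₃ ∈ A, ∃ a₄ ∈ A, x = a₁ + a₂ - a₃ - a₄) →
        1 / 180 * (Real.log (1 / α) * Real.log (Real.log (1 / α))) ≤ Γ.card * Real.log (1 / ε) := by
  classical
  obtain ⟨T0, hT0⟩ : ∃ T0 : ℕ, T0 = 200000 := ⟨_, rfl⟩
  refine ⟨1 / (128 * (4 : ℝ) ^ (T0 ^ 4)), by positivity, ?_⟩
  intro α hα hα0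
  have hy : 128 * (4 : ℝ) ^ (T0 ^ 4) ≤ 1 / α := by
    rw [le_div_iff₀ hα]
    rw [le_div_iff₀ (by positivity)] at hα0
    linarith
  obtain ⟨t, hTt, ht1, ht2⟩ := exists_t T0 (by omega) _ hy
  have ht : 200000 ≤ t := by omega
  obtain ⟨A, hA1, hA2, hA3, hA4⟩ := main_t t ht
  obtain ⟨M, hM⟩ : ∃ M : ℕ, M = (8 * t ^ 2 + 1) ^ (t ^ 4) := ⟨_, rfl⟩
  rw [← hM] at hA1 hA4
  have hM1 : 1 ≤ M := by rw [hM]; exact Nat.one_le_pow _ _ (by positivity)
  refine ⟨max (8 * (3 * M + 1)) ⌈1 / α⌉₊, ?_⟩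
  intro N hN
  have hN1 : 8 * (3 * M + 1) ≤ N := (le_max_left _ _).trans hN
  have hN2 : 1 / α ≤ N := by
    have e1 : ⌈1 / α⌉₊ ≤ N := (le_max_right _ _).trans hN
    exact (Nat.le_ceil _).trans (by exact_mod_cast e1)
  have hNpos : 0 < N := by omega
  have : NeZero N := ⟨hNpos.ne'⟩
  obtain ⟨w, hw⟩ : ∃ w : ℕ, w = N / (8 * (3 * M + 1)) := ⟨_, rfl⟩
  have hw1 : 1 ≤ w := by
    rw [hw]
    exact (Nat.one_le_div_iff (by positivity)).2 hN1
  have hwN : 8 * w * (3 * M + 1) ≤ N := by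
    have e1 := Nat.div_mul_le_self N (8 * (3 * M + 1))
    rw [← hw] at e1
    calc 8 * w * (3 * M + 1) = w * (8 * (3 * M + 1)) := by ring
      _ ≤ N := e1
  have hNw : N ≤ 64 * M * w := by
    have e1 : N < 8 * (3 * M + 1) * (w + 1) := by
      have := Nat.lt_mul_div_succ N (show 0 < 8 * (3 * M + 1) by positivity)
      rwa [← hw] at this
    have e2 : 8 * (3 * M + 1) * (w + 1) ≤ 8 * (4 * M) * (2 * w) :=
      Nat.mul_le_mul (by omega) (by omega)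
    calc N ≤ 8 * (4 * M) * (2 * w) := e1.le.trans e2
      _ = 64 * M * w := by ring
  -- the image in `ZMod N`
  set F : Finset (ZMod N) := (fat w A).image fun z : ℤ => (z : ZMod N) with hF
  have hFcard : F.card = A.card * w := by
    rw [hF, Finset.card_image_of_injOn, card_fat]
    intro x hx y hy' hxy
    rw [Finset.mem_coe, mem_fat] at hx hy'
    obtain ⟨a, ha, j, hj, rfl⟩ := hx
    obtain ⟨b, hb, k, hk, rfl⟩ := hy'
    simp only at hxy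
    rw [ZMod.intCast_eq_intCast_iff_dvd_sub] at hxy
    obtain ⟨z, hz⟩ := hxy
    have c₁ := Finset.mem_Icc.1 (hA1 ha)
    have c₂ := Finset.mem_Icc.1 (hA1 hb)
    have hj' : (j : ℤ) < w := by exact_mod_cast hj
    have hk' : (k : ℤ) < w := by exact_mod_cast hk
    have hj0 : (0 : ℤ) ≤ j := Int.natCast_nonneg _
    have hk0 : (0 : ℤ) ≤ k := Int.natCast_nonneg _
    have hwZ : (1 : ℤ) ≤ w := by exact_mod_cast hw1
    have hNZ : 8 * (w : ℤ) * (3 * M + 1) ≤ N := by exact_mod_cast hwN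
    have hw8 : (0 : ℤ) ≤ 8 * (w : ℤ) := by linarith
    have m1 : a * (8 * (w : ℤ)) ≤ M * (8 * (w : ℤ)) := mul_le_mul_of_nonneg_right c₁.2 hw8
    have m2 : b * (8 * (w : ℤ)) ≤ M * (8 * (w : ℤ)) := mul_le_mul_of_nonneg_right c₂.2 hw8
    have m3 : 1 * (8 * (w : ℤ)) ≤ a * (8 * (w : ℤ)) := mul_le_mul_of_nonneg_right c₁.1 hw8
    have m4 : 1 * (8 * (w : ℤ)) ≤ b * (8 * (w : ℤ)) := mul_le_mul_of_nonneg_right c₂.1 hw8
    have m5 : 8 * (w : ℤ) * (3 * M + 1) = 3 * (M * (8 * (w : ℤ))) + 8 * w := by ring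
    rw [m5] at hNZ
    have m6 : (0 : ℤ) ≤ M * (8 * (w : ℤ)) := by positivity
    have hNn : (0 : ℤ) ≤ N := Int.natCast_nonneg N
    have hz0 : z = 0 := by
      by_contra hne
      rcases lt_or_gt_of_ne hne with h1 | h1
      · have h2 : z ≤ -1 := by omega
        have h3 : (N : ℤ) * z ≤ N * (-1) := mul_le_mul_of_nonneg_left h2 hNn
        linarith
      · have h2 : 1 ≤ z := h1
        have h3 : (N : ℤ) * 1 ≤ N * z := mul_le_mul_of_nonneg_left h2 hNn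
        linarith
    rw [hz0, mul_zero] at hz
    linarith
  -- the size
  have hsize : α * N ≤ (F.card : ℝ) := by
    have e1 : (M : ℝ) ≤ 4 ^ (t ^ 4) * (2 * (t : ℝ) ^ 2 + 1) ^ (t ^ 4) := by
      rw [hM, ← mul_pow]
      push_cast
      exact pow_le_pow_left₀ (by positivity) (by linarith) _
    have e2 : ((2 * (t : ℝ) ^ 2 + 1) ^ (t ^ 4) : ℝ) ≤ 2 * (A.card : ℝ) := by exact_mod_cast hA2
    have e3 : (N : ℝ) ≤ 64 * M * w := by exact_mod_cast hNw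
    have e4 : α * (128 * (4 : ℝ) ^ (t ^ 4)) ≤ 1 := by
      rw [le_div_iff₀ hα] at ht1
      linarith
    rw [hFcard]
    push_cast
    have hwR : (0 : ℝ) ≤ w := Nat.cast_nonneg w
    have h4p : (0 : ℝ) < 4 ^ (t ^ 4) := by positivity
    have e5 : (M : ℝ) ≤ 4 ^ (t ^ 4) * (2 * (A.card : ℝ)) :=
      e1.trans (mul_le_mul_of_nonneg_left e2 h4p.le)
    calc α * N ≤ α * (64 * M * w) := mul_le_mul_of_nonneg_left e3 hα.le
      _ = (α * 64 * w) * M := by ring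
      _ ≤ (α * 64 * w) * (4 ^ (t ^ 4) * (2 * (A.card : ℝ))) :=
          mul_le_mul_of_nonneg_left e5 (by positivity)
      _ = (α * (128 * (4 : ℝ) ^ (t ^ 4))) * (A.card * w) := by ring
      _ ≤ 1 * (A.card * w) := mul_le_mul_of_nonneg_right e4 (by positivity)
      _ = A.card * w := one_mul _
  have hNR : (0 : ℝ) < N := by exact_mod_cast hNpos
  have hαN : 1 ≤ α * N := by
    rw [div_le_iff₀ hα] at hN2
    linarith
  obtain ⟨B, hBF, hBc⟩ := Finset.exists_subset_card_eq (s := F) (n := ⌈α * N⌉₊)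
    (Nat.ceil_le.2 hsize)
  refine ⟨B, ?_, ?_, ?_⟩
  · rw [hBc]; exact Nat.le_ceil _
  · rw [hBc]
    have := (Nat.ceil_lt_add_one (by positivity : (0 : ℝ) ≤ α * N)).le
    linarith
  · intro Γ ε hε hε2 hsub
    obtain ⟨Θ, hΘ, hΘs⟩ := transfer hw1 hwN hM1 hA1 Γ ε (by
      intro x hx
      obtain ⟨a₁, h₁, a₂, h₂, a₃, h₃, a₄, h₄, he⟩ := hsub x hx
      obtain ⟨b₁, g₁, rfl⟩ := Finset.mem_image.1 (hBF h₁)
      obtain ⟨b₂, g₂, rfl⟩ := Finset.mem_image.1 (hBF h₂)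
      obtain ⟨b₃, g₃, rfl⟩ := Finset.mem_image.1 (hBF h₃)
      obtain ⟨b₄, g₄, rfl⟩ := Finset.mem_image.1 (hBF h₄)
      refine ⟨b₁, g₁, b₂, g₂, b₃, g₃, b₄, g₄, ?_⟩
      rw [he]
      push_cast
      ring)
    have hfin := hA4 Θ ε hε hε2 hΘs
    refine log_form ht hε hε2 ?_ ht1 ht2
    refine hfin.trans (Nat.mul_le_mul_left _ (Nat.pow_le_pow_right ?_ (by omega)))
    exact Nat.ceil_pos.2 (by positivity)

end Pool.Agent.TH934.BR
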